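import Mathlib

/-!
# ccs Delta-points in `ℓ∞`-sums

If `x` is a ccs Delta-point of `X` and `v` is any element of the unit ball of `Y`, then `(x, v)` is
a ccs Delta-point of the `ℓ∞`-sum of `X` and `Y`.
-/

namespace Pool.Agent.Results.MP_c457a4_an.SumDelta

open Set

/-- The slice `{z ∈ B_X : Re f(z) > 1 - α}` of the closed unit ball of `X`. -/
def slice {𝕜 X : Type*} [RCLike 𝕜] [NormedAddCommGroup X] [NormedSpace 𝕜 X]
    (f : StrongDual 𝕜 X) (α : ℝ) : Set X :=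
  {z | ‖z‖ ≤ 1 ∧ 1 - α < RCLike.re (f z)}

/-- `S` is a slice of the closed unit ball of `X`: `S = {z ∈ B_X : Re f(z) > 1 - α}` with
`‖f‖ = 1` and `α > 0`. -/
def IsSlice (𝕜 : Type*) {X : Type*} [RCLike 𝕜] [NormedAddCommGroup X] [NormedSpace 𝕜 X]
    (S : Set X) : Prop :=
  ∃ (f : StrongDual 𝕜 X) (α : ℝ), ‖f‖ = 1 ∧ 0 < α ∧ S = slice f α

/-- `C` is a convex combination of slices of the closed unit ball of `X`. -/
def IsCcs (𝕜 : Type*) {X : Type*} [RCLike 𝕜] [NormedAddCommGroup X] [NormedSpace 𝕜 X]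
    (C : Set X) : Prop :=
  ∃ (n : ℕ) (lam : Fin n → ℝ) (S : Fin n → Set X), 1 ≤ n ∧ (∀ i, IsSlice 𝕜 (S i)) ∧
    (∀ i, 0 ≤ lam i) ∧ ∑ i, lam i = 1 ∧
    C = {z | ∃ u : Fin n → X, (∀ i, u i ∈ S i) ∧ z = ∑ i, (lam i : 𝕜) • u i}

/-- `x` is a ccs Delta-point of `X`: `‖x‖ = 1` and `sup_{z ∈ C} ‖x - z‖ = 2` for every convex
combination of slices `C` of the closed unit ball which contains `x`. -/
def IsCcsDeltaPoint (𝕜 : Type*) {X : Type*} [RCLike 𝕜] [NormedAddCommGroup X] [NormedSpace 𝕜 X]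
    (x : X) : Prop :=
  ‖x‖ = 1 ∧ ∀ C : Set X, IsCcs 𝕜 C → x ∈ C → sSup ((fun z => ‖x - z‖) '' C) = 2

section aux

variable {𝕜 X Y Z : Type*} [RCLike 𝕜]
  [NormedAddCommGroup X] [NormedSpace 𝕜 X]
  [NormedAddCommGroup Y] [NormedSpace 𝕜 Y]
  [NormedAddCommGroup Z] [NormedSpace 𝕜 Z]

/-- If `{u ∈ B_X : r < Re f(u)}` is nonempty and `X` is nontrivial then it is a slice. -/
lemma isSlice_of_nonempty (f : StrongDual 𝕜 X) (r : ℝ) (u₀ : X) (hu₀ : ‖u₀‖ ≤ 1)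
    (h : r < RCLike.re (f u₀)) (x : X) (hx : ‖x‖ = 1) :
    IsSlice 𝕜 {u : X | ‖u‖ ≤ 1 ∧ r < RCLike.re (f u)} := by
  by_cases hf : f = 0
  · subst hf
    obtain ⟨g, hg, -⟩ := exists_dual_vector 𝕜 x (by intro h0; simp [h0] at hx)
    refine ⟨g, 3, hg, by norm_num, ?_⟩
    simp only [ContinuousLinearMap.zero_apply, map_zero] at h
    ext u
    simp only [slice, mem_setOf_eq, ContinuousLinearMap.zero_apply, map_zero, h, and_true]
    constructor
    · intro hu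
      refine ⟨hu, ?_⟩
      have h1 : |RCLike.re (g u)| ≤ 1 := by
        calc |RCLike.re (g u)| ≤ ‖g u‖ := RCLike.abs_re_le_norm _
          _ ≤ ‖g‖ * ‖u‖ := g.le_opNorm u
          _ ≤ 1 := by rw [hg, one_mul]; exact hu
      have := (abs_le.1 h1).1
      linarith
    · exact fun hu => hu.1
  · have hpos : 0 < ‖f‖ := norm_pos_iff.2 hf
    refine ⟨((‖f‖⁻¹ : ℝ) : 𝕜) • f, 1 - r / ‖f‖, ?_, ?_, ?_⟩
    · rw [norm_smul, RCLike.norm_ofReal, abs_of_pos (inv_pos.2 hpos)]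
      exact inv_mul_cancel₀ hpos.ne'
    · have h1 : RCLike.re (f u₀) ≤ ‖f‖ := by
        calc RCLike.re (f u₀) ≤ ‖f u₀‖ := RCLike.re_le_norm _
          _ ≤ ‖f‖ * ‖u₀‖ := f.le_opNorm u₀
          _ ≤ ‖f‖ * 1 := by gcongr
          _ = ‖f‖ := mul_one _
      have : r / ‖f‖ < 1 := by
        rw [div_lt_one hpos]; linarith
      linarith
    · ext u
      simp only [slice, mem_setOf_eq, ContinuousLinearMap.smul_apply, smul_eq_mul]
      rw [RCLike.re_ofReal_mul, sub_sub_cancel, div_eq_inv_mul]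
      have : (‖f‖⁻¹ * r < ‖f‖⁻¹ * RCLike.re (f u)) ↔ r < RCLike.re (f u) :=
        mul_lt_mul_iff_right₀ (inv_pos.2 hpos)
      rw [this]

/-- Elements of a convex combination of slices lie in the unit ball. -/
lemma norm_le_one_of_mem_ccs {C : Set X} (hC : IsCcs 𝕜 C) {z : X} (hz : z ∈ C) : ‖z‖ ≤ 1 := by
  obtain ⟨n, lam, S, -, hS, hlam, hsum, rfl⟩ := hC
  obtain ⟨u, hu, rfl⟩ := hz
  calc ‖∑ i, (lam i : 𝕜) • u i‖ ≤ ∑ i, ‖(lam i : 𝕜) • u i‖ := norm_sum_le _ _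
    _ ≤ ∑ i, lam i := by
        refine Finset.sum_le_sum fun i _ => ?_
        rw [norm_smul, RCLike.norm_ofReal, abs_of_nonneg (hlam i)]
        obtain ⟨f, α, -, -, hSi⟩ := hS i
        have := hu i
        rw [hSi] at this
        exact mul_le_of_le_one_right (hlam i) this.1
    _ = 1 := hsum

/-- The general lemma: `Z` is the `ℓ∞`-sum of `X` and `Y` through `ι` and `κ`. -/
lemma main (ι : X →L[𝕜] Z) (κ : Y →L[𝕜] Z)
    (hnorm : ∀ u v, ‖ι u + κ v‖ = max ‖u‖ ‖v‖) (hsurj : ∀ z, ∃ u v, z = ι u + κ v)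
    (x : X) (hx : IsCcsDeltaPoint 𝕜 x) (v : Y) (hv : ‖v‖ ≤ 1) :
    IsCcsDeltaPoint 𝕜 (ι x + κ v) := by
  have hx1 := hx.1
  have hn1 : ‖ι x + κ v‖ = 1 := by
    rw [hnorm, hx1]; exact max_eq_left hv
  refine ⟨hn1, ?_⟩
  intro C hC hmem
  have hCball := fun z (hz : z ∈ C) => norm_le_one_of_mem_ccs hC hz
  have hne : ((fun z => ‖(ι x + κ v) - z‖) '' C).Nonempty := ⟨_, ⟨_, hmem, rfl⟩⟩
  have hbdd : ∀ d ∈ ((fun z => ‖(ι x + κ v) - z‖) '' C), d ≤ 2 := by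
    rintro d ⟨z, hz, rfl⟩
    calc ‖(ι x + κ v) - z‖ ≤ ‖ι x + κ v‖ + ‖z‖ := norm_sub_le _ _
      _ ≤ 1 + 1 := add_le_add hn1.le (hCball z hz)
      _ = 2 := by norm_num
  refine le_antisymm (csSup_le hne hbdd) ?_
  obtain ⟨n, lam, S, hn, hS, hlam, hsum, rfl⟩ := hC
  obtain ⟨w, hw, hw2⟩ := hmem
  choose uu vv huv using fun i => hsurj (w i)
  choose f α hf hα hSf using hS
  -- identify components
  have hinj : ∀ u u' : X, ∀ v v' : Y, ι u + κ v = ι u' + κ v' → u = u' ∧ v = v' := by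
    intro u u' v v' h
    have h1 : ι (u - u') + κ (v - v') = 0 := by
      rw [map_sub, map_sub]
      have : ι u - ι u' + (κ v - κ v') = (ι u + κ v) - (ι u' + κ v') := by abel
      rw [this, h, sub_self]
    have h2 := hnorm (u - u') (v - v')
    rw [h1, norm_zero] at h2
    have h3 : ‖u - u'‖ ≤ 0 := (le_max_left _ _).trans h2.ge
    have h4 : ‖v - v'‖ ≤ 0 := (le_max_right _ _).trans h2.ge
    exact ⟨sub_eq_zero.1 (norm_le_zero_iff.1 h3), sub_eq_zero.1 (norm_le_zero_iff.1 h4)⟩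
  have hsumuv : ∀ (a : Fin n → X), ∑ i, (lam i : 𝕜) • (ι (a i) + κ (vv i)) =
      ι (∑ i, (lam i : 𝕜) • a i) + κ (∑ i, (lam i : 𝕜) • vv i) := by
    intro a
    simp only [map_sum, map_smul, smul_add, Finset.sum_add_distrib]
  have hkey : ι x + κ v = ι (∑ i, (lam i : 𝕜) • uu i) + κ (∑ i, (lam i : 𝕜) • vv i) := by
    rw [hw2, ← hsumuv]
    exact Finset.sum_congr rfl fun i _ => by rw [← huv i]
  obtain ⟨hxu, hvv⟩ := hinj _ _ _ _ hkey
  -- the slices of `X`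
  set T : Fin n → Set X := fun i =>
    {u : X | ‖u‖ ≤ 1 ∧ 1 - α i - RCLike.re (f i (κ (vv i))) < RCLike.re ((f i).comp ι u)} with hT
  have hwi : ∀ i, ‖w i‖ ≤ 1 ∧ 1 - α i < RCLike.re (f i (w i)) := by
    intro i
    have := hw i
    rw [hSf i] at this
    exact this
  have hvv1 : ∀ i, ‖vv i‖ ≤ 1 := by
    intro i
    have := (hwi i).1
    rw [huv i, hnorm] at this
    exact (le_max_right _ _).trans this
  have huT : ∀ i, uu i ∈ T i := by
    intro i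
    have h1 := (hwi i).1
    have h2 := (hwi i).2
    rw [huv i] at h1 h2
    rw [hnorm] at h1
    refine ⟨(le_max_left _ _).trans h1, ?_⟩
    rw [map_add, map_add] at h2
    simp only [ContinuousLinearMap.comp_apply]
    linarith
  have hTS : ∀ i, IsSlice 𝕜 (T i) := by
    intro i
    exact isSlice_of_nonempty _ _ (uu i) (huT i).1 (huT i).2 x hx1
  set D : Set X := {z | ∃ u : Fin n → X, (∀ i, u i ∈ T i) ∧ z = ∑ i, (lam i : 𝕜) • u i} with hD
  have hDccs : IsCcs 𝕜 D := ⟨n, lam, T, hn, hTS, hlam, hsum, rfl⟩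
  have hxD : x ∈ D := ⟨uu, huT, hxu⟩
  have h2 := hx.2 D hDccs hxD
  rw [← h2]
  refine csSup_le ⟨_, ⟨_, hxD, rfl⟩⟩ ?_
  rintro d ⟨z, ⟨a, ha, rfl⟩, rfl⟩
  refine le_csSup ⟨2, hbdd⟩ ?_
  refine ⟨∑ i, (lam i : 𝕜) • (ι (a i) + κ (vv i)), ⟨fun i => ι (a i) + κ (vv i), ?_, rfl⟩, ?_⟩
  · intro i
    rw [hSf i]
    refine ⟨?_, ?_⟩
    · rw [hnorm]; exact max_le (ha i).1 (hvv1 i)
    · have := (ha i).2
      simp only [ContinuousLinearMap.comp_apply] at this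
      rw [map_add, map_add]
      linarith
  · simp only
    rw [hsumuv, ← hvv]
    have : ι x + κ v - (ι (∑ i, (lam i : 𝕜) • a i) + κ v) =
        ι (x - ∑ i, (lam i : 𝕜) • a i) + κ 0 := by
      rw [map_sub, map_zero]; abel
    rw [this, hnorm, norm_zero]
    exact max_eq_left (norm_nonneg _)

end aux

/-- **Answer to Q1 (positive).** Let `X`, `Y` be normed spaces over `𝕜 = ℝ` or `ℂ` (in particular
Banach spaces), let `x`, `y` be ccs Delta-points of `X`, `Y` and `a, b ∈ [0, 1]` with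
`max a b = 1`. Then `(a x, b y)` is a ccs Delta-point of the `ℓ∞`-sum `X × Y` (the norm of
`X × Y` is the maximum norm). -/
theorem result (𝕜 : Type*) [RCLike 𝕜] (X Y : Type*)
    [NormedAddCommGroup X] [NormedSpace 𝕜 X] [NormedAddCommGroup Y] [NormedSpace 𝕜 Y]
    (x : X) (y : Y) (hx : IsCcsDeltaPoint 𝕜 x) (hy : IsCcsDeltaPoint 𝕜 y)
    (a b : ℝ) (ha : a ∈ Icc (0 : ℝ) 1) (hb : b ∈ Icc (0 : ℝ) 1) (hab : max a b = 1) :
    IsCcsDeltaPoint 𝕜 (((a : 𝕜) • x, (b : 𝕜) • y) : X × Y) := by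
  have hna : ‖(a : 𝕜) • x‖ ≤ 1 := by
    rw [norm_smul, hx.1, RCLike.norm_ofReal, abs_of_nonneg ha.1, mul_one]; exact ha.2
  have hnb : ‖(b : 𝕜) • y‖ ≤ 1 := by
    rw [norm_smul, hy.1, RCLike.norm_ofReal, abs_of_nonneg hb.1, mul_one]; exact hb.2
  rcases max_choice a b with h | h
  · have ha1 : a = 1 := by rw [← h]; exact hab
    subst ha1
    have := main (𝕜 := 𝕜) (ContinuousLinearMap.inl 𝕜 X Y) (ContinuousLinearMap.inr 𝕜 X Y)
      (by intro u v; simp [Prod.norm_def]) (by rintro ⟨u, v⟩; exact ⟨u, v, by simp⟩)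
      x hx ((b : 𝕜) • y) hnb
    simpa using this
  · have hb1 : b = 1 := by rw [← h]; exact hab
    subst hb1
    have := main (𝕜 := 𝕜) (ContinuousLinearMap.inr 𝕜 X Y) (ContinuousLinearMap.inl 𝕜 X Y)
      (by intro u v; simp [Prod.norm_def, max_comm]) (by rintro ⟨u, v⟩; exact ⟨v, u, by simp⟩)
      y hy ((a : 𝕜) • x) hna
    simpa using this

end Pool.Agent.Results.MP_c457a4_an.SumDelta
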